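import Pool.Agent.Helper5.FRD.Goals
import Pool.Agent.Helper9.FRC.NPR

/-!
# Project FRD (MP_79b960_co): packet FRD-LOOP (two looping leaves)
-/

set_option autoImplicit false

namespace Pool.Agent.Helper57.FRD.LOOP

open Finset Pool.Agent.Helper5.FRC Pool.Agent.Helper5.FRD

section

variable {V : Type} [DecidableEq V]

/-- `D` is the chain of `e` -/
def Ch (A Z : Finset V) (t p t' : V → V) (e : V) (D : Finset V) : Prop :=
  D ⊆ A ∧ Cl Z ∅ t p D ∧ D \ Z = {e, t' e} ∧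
      (∀ U' ⊆ A, e ∈ U' → Cl Z ∅ t p U' → D ⊆ U') ∧
      ∀ U' ⊆ A, t' e ∈ U' → Cl Z ∅ t p U' → D ⊆ U'

/-- `v` is marked with `i` -/
def Mk (A Z : Finset V) (t p t' : V → V) (C : Fin 4 → Finset V) (v : V) (i : Fin 4) : Prop :=
  ∃ e ∈ C i, t' e ∈ C i ∧ ∃ D, Ch A Z t p t' e D ∧ v ∈ D

theorem mk_p {A Z : Finset V} {t p t' : V → V} {C : Fin 4 → Finset V} {v : V} {i : Fin 4}
    (h : Mk A Z t p t' C v i) (hv : v ∈ Z) : Mk A Z t p t' C (p v) i := by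
  obtain ⟨e, he, he', D, hD, hvD⟩ := h
  exact ⟨e, he, he', D, hD, (hD.2.1 v hvD).2 hv (notMem_empty v)⟩

theorem ch_e {A Z : Finset V} {t p t' : V → V} {e : V} {D : Finset V}
    (h : Ch A Z t p t' e D) : e ∈ D ∧ t' e ∈ D := by
  constructor
  · have h1 : e ∈ D \ Z := by rw [h.2.2.1]; simp
    exact (mem_sdiff.1 h1).1
  · have h1 : t' e ∈ D \ Z := by rw [h.2.2.1]; simp
    exact (mem_sdiff.1 h1).1

theorem uniq {A Z : Finset V} {t p t' : V → V} {C : Fin 4 → Finset V} (hA : Prg A t)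
    (hZp : Prg Z p) (hC : ∀ i, C i ⊆ A \ Z) (hd : ∀ i j, i ≠ j → Disjoint (C i) (C j))
    {v : V} {i j : Fin 4} (h1 : Mk A Z t p t' C v i) (h2 : Mk A Z t p t' C v j) : i = j := by
  obtain ⟨e, he, he', D, hD, hv⟩ := h1
  obtain ⟨f, hf, hf', D', hD', hv'⟩ := h2
  by_contra hij
  have heD := (ch_e hD).1
  have heD' : e ∈ D' := by
    by_contra hne
    have hcl : Cl Z ∅ t p (D \ D') := by
      intro x hx
      rw [mem_sdiff] at hx
      have hxA := hD.1 hx.1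
      have h1 := hD.2.1 x hx.1
      refine ⟨?_, fun hxZ _ => ?_⟩
      · rw [mem_sdiff]
        refine ⟨h1.1, fun h => hx.2 ?_⟩
        have h3 := (hD'.2.1 _ h).1
        rwa [(hA x hxA).2.1] at h3
      · rw [mem_sdiff]
        refine ⟨h1.2 hxZ (notMem_empty x), fun h => hx.2 ?_⟩
        have h3 := (hD'.2.1 _ h).2 (hZp x hxZ).1 (notMem_empty _)
        rwa [(hZp x hxZ).2.1] at h3
    have h4 := hD.2.2.2.1 (D \ D') (sdiff_subset.trans hD.1) (mem_sdiff.2 ⟨heD, hne⟩) hcl hv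
    exact (mem_sdiff.1 h4).2 hv'
  have h3 : e ∈ D' \ Z := mem_sdiff.2 ⟨heD', (mem_sdiff.1 (hC i he)).2⟩
  rw [hD'.2.2.1, mem_insert, mem_singleton] at h3
  have h4 : e ∈ C j := by
    rcases h3 with h3 | h3
    · rw [h3]; exact hf
    · rw [h3]; exact hf'
  exact disjoint_left.1 (hd i j hij) he h4

theorem facts {n : Equiv.Perm V} {A : Finset V} {t : V → V} {C : Fin 4 → Finset V} {Z : Finset V}
    (h : Five n A t C Z) : Prg A t ∧ Z ⊆ A ∧ (∀ i, C i ⊆ A \ Z) ∧ Cir n Z ∧ Even Z.card ∧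
      ∀ i j, i ≠ j → Disjoint (C i) (C j) := by
  obtain ⟨_, hA, _, _, _, hd, hZ, hZe, hCZ, hAe⟩ := h
  refine ⟨hA, ?_, ?_, hZ, hZe, hd⟩
  · rw [hAe]; exact subset_union_right
  · intro i x hx
    rw [mem_sdiff]
    refine ⟨?_, disjoint_left.1 (hCZ i) hx⟩
    rw [hAe, mem_union]
    left
    exact mem_biUnion.2 ⟨i, mem_univ i, hx⟩

end

section

variable {V : Type} [Fintype V] [DecidableEq V]

theorem inj4 {i j k : Fin 4} (h1 : i ≠ j) (h2 : i ≠ k) (h3 : j ≠ k) (h4 : i ≠ 3) (h5 : j ≠ 3)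
    (h6 : k ≠ 3) : Function.Injective ![i, j, k, 3] := by
  intro r s hrs
  fin_cases r <;> fin_cases s <;>
    first
    | rfl
    | exact absurd hrs h1
    | exact absurd hrs h2
    | exact absurd hrs h3
    | exact absurd hrs h4
    | exact absurd hrs h5
    | exact absurd hrs h6
    | exact absurd hrs h1.symm
    | exact absurd hrs h2.symm
    | exact absurd hrs h3.symm
    | exact absurd hrs h4.symm
    | exact absurd hrs h5.symm
    | exact absurd hrs h6.symm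

/-- a tail from `s`, if the chain of `e` meets the arc only in the pair of `s` -/
theorem tail (h2 : MarkStmt) {A Z : Finset V} {t p t' : V → V} {C : Fin 4 → Finset V}
    (hA : Prg A t) (hZA : Z ⊆ A) (hZp : Prg Z p) (hC : ∀ i, C i ⊆ A \ Z)
    (hT : Prg (A \ Z) t') {X : Finset V} (hXZ : X ⊆ Z) (hXp : ∀ x ∈ X, p x ∈ X) {s : V}
    (hs : s ∈ X) {i : Fin 4} (hm : Mk A Z t p t' C s i)
    (hX : ∀ u ∈ X, Mk A Z t p t' C u i → u = s ∨ u = p s) :
    ∃ e ∈ C i, ∃ U, Tl A Z X t p s e U := by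
  obtain ⟨e, he, he', D, hD, hsD⟩ := hm
  have hDX : D ∩ X = {s, p s} := by
    ext u
    rw [mem_inter, mem_insert, mem_singleton]
    constructor
    · rintro ⟨hu, hu'⟩
      exact hX u hu' ⟨e, he, he', D, hD, hu⟩
    · rintro (h | h)
      · rw [h]; exact ⟨hsD, hs⟩
      · rw [h]; exact ⟨(hD.2.1 s hsD).2 (hXZ hs) (notMem_empty s), hXp s hs⟩
  obtain ⟨U, hU⟩ := h2 V A Z X t p hA hZA hZp hXZ hXp e (hC i he) (t' e) (hC i he')
    (hT e (hC i he)).2.2 D hD.1 (ch_e hD).1 (ch_e hD).2 hD.2.1 hD.2.2.2.1 hD.2.2.2.2 s hs hDX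
  rcases hU with hU | hU
  · exact ⟨e, he, U, hU⟩
  · exact ⟨t' e, he', U, hU⟩

theorem t (h1 : ArcqStmt) (h2 : MarkStmt) (h3 : ChainStmt) (h4 : DescStmt) (h5 : ArcfStmt) :
    LoopStmt := by
  intro V _ _ n A t C Z hF p t' hAlg hRed hstar i₀ j₀ hij₀ hi₀ hj₀ x hx htx ht'x y hy hty ht'y
  obtain ⟨hA, hZA, hC, hZ, hZe, hd⟩ := facts hF
  have hZp : Prg Z p := hAlg.1
  have hT : Prg (A \ Z) t' := hRed.1
  -- marks
  have hmark : ∀ i, ∀ x ∈ C i, t' x ∈ C i → Mk A Z t p t' C (t x) i := by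
    intro i x hx ht'x
    obtain ⟨⟨D, hD⟩, _, _⟩ := h3 V A Z t p t' hA hZA hZp hRed x (hC i hx)
    have hD' : Ch A Z t p t' x D := hD
    exact ⟨x, hx, ht'x, D, hD', (hD'.2.1 x (ch_e hD').1).1⟩
  have hmx := hmark i₀ x hx ht'x
  have hmy := hmark j₀ y hy ht'y
  -- the starting point
  obtain ⟨z, hz, hpz⟩ : ∃ z ∈ Z, p z = n z := by
    obtain ⟨z, hz⟩ := hZ.1
    rcases hAlg.2 z hz with h | h
    · exact ⟨z, hz, h⟩
    · refine ⟨p z, (hZp z hz).1, ?_⟩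
      rw [(hZp z hz).2.1, h]
  obtain ⟨hpair, _⟩ := h1 V n Z p hZ hZe hAlg z hz hpz
  obtain ⟨hmem, hsurj, _⟩ := Pool.Agent.Helper9.FRC.NPR.enum n Z hZ z hz
  have hposZ : ∀ k, (n ^ k) z ∈ Z := by
    intro k
    have h := hmem k
    rwa [Equiv.Perm.iterate_eq_pow] at h
  have hZe2 : Z.card % 2 = 0 := Nat.even_iff.1 hZe
  have hex : ∀ v ∈ Z, ∀ i, Mk A Z t p t' C v i →
      ∃ k, 2 * k + 1 < Z.card ∧ Mk A Z t p t' C ((n ^ (2 * k)) z) i := by
    intro v hv i hi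
    obtain ⟨m, hm, hmv⟩ := hsurj v hv
    rw [Equiv.Perm.iterate_eq_pow] at hmv
    rcases Nat.even_or_odd' m with ⟨k, hk | hk⟩
    · subst hk
      exact ⟨k, by omega, by rw [hmv]; exact hi⟩
    · subst hk
      refine ⟨k, hm, ?_⟩
      have h := mk_p hi hv
      rwa [← hmv, (hpair k hm).2] at h
  -- the minimal arc
  obtain ⟨k1, hk1, hmk1⟩ := hex _ htx _ hmx
  obtain ⟨k2, hk2, hmk2⟩ := hex _ hty _ hmy
  have hQ : ∃ d, ∃ a i j, i ≠ j ∧ i ≠ 3 ∧ j ≠ 3 ∧ 2 * (a + d) + 1 < Z.card ∧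
      Mk A Z t p t' C ((n ^ (2 * a)) z) i ∧ Mk A Z t p t' C ((n ^ (2 * (a + d))) z) j := by
    rcases le_total k1 k2 with h | h
    · refine ⟨k2 - k1, k1, i₀, j₀, hij₀, hi₀, hj₀, ?_, hmk1, ?_⟩
      · rw [Nat.add_sub_cancel' h]; exact hk2
      · rw [Nat.add_sub_cancel' h]; exact hmk2
    · refine ⟨k1 - k2, k2, j₀, i₀, hij₀.symm, hj₀, hi₀, ?_, hmk2, ?_⟩
      · rw [Nat.add_sub_cancel' h]; exact hk1
      · rw [Nat.add_sub_cancel' h]; exact hmk1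
  classical
  obtain ⟨d, hd0, hmin⟩ : ∃ d, (∃ a i j, i ≠ j ∧ i ≠ 3 ∧ j ≠ 3 ∧ 2 * (a + d) + 1 < Z.card ∧
      Mk A Z t p t' C ((n ^ (2 * a)) z) i ∧ Mk A Z t p t' C ((n ^ (2 * (a + d))) z) j) ∧
      ∀ d' < d, ¬ ∃ a i j, i ≠ j ∧ i ≠ 3 ∧ j ≠ 3 ∧ 2 * (a + d') + 1 < Z.card ∧
      Mk A Z t p t' C ((n ^ (2 * a)) z) i ∧ Mk A Z t p t' C ((n ^ (2 * (a + d'))) z) j :=
    ⟨Nat.find hQ, Nat.find_spec hQ, fun d' hd' => Nat.find_min hQ hd'⟩
  obtain ⟨a, i, j, hij, hi3, hj3, hb, hma, hmb⟩ := hd0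
  have hdpos : 0 < d := by
    rcases Nat.eq_zero_or_pos d with h | h
    · exfalso
      subst h
      exact hij (uniq hA hZp hC hd hma hmb)
    · exact h
  have hbetw : ∀ c, a < c → c < a + d → ∀ w, w ≠ 3 → ¬ Mk A Z t p t' C ((n ^ (2 * c)) z) w := by
    intro c hc hc' w hw hm
    by_cases hwj : w = j
    · subst hwj
      refine hmin (c - a) (by omega) ⟨a, i, w, hij, hi3, hw, ?_, hma, ?_⟩
      · have e1 : a + (c - a) = c := by omega
        rw [e1]; omega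
      · have e1 : a + (c - a) = c := by omega
        rw [e1]; exact hm
    · refine hmin (a + d - c) (by omega) ⟨c, w, j, hwj, hw, hj3, ?_, hm, ?_⟩
      · have e1 : c + (a + d - c) = a + d := by omega
        rw [e1]; exact hb
      · have e1 : c + (a + d - c) = a + d := by omega
        rw [e1]; exact hmb
  obtain ⟨b, hbd⟩ : ∃ b, b = a + d := ⟨_, rfl⟩
  rw [← hbd] at hb hmb hbetw
  have hab : a < b := by omega
  -- the arc
  have hXmem : ∀ v ∈ Arc n z a b, ∃ k, a ≤ k ∧ k ≤ b ∧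
      (v = (n ^ (2 * k)) z ∨ v = (n ^ (2 * k + 1)) z) := by
    intro v hv
    unfold Arc at hv
    rw [mem_image] at hv
    obtain ⟨m, hm, rfl⟩ := hv
    rw [Finset.mem_Icc] at hm
    rcases Nat.even_or_odd' m with ⟨k, hk | hk⟩
    · subst hk
      exact ⟨k, by omega, by omega, Or.inl rfl⟩
    · subst hk
      exact ⟨k, by omega, by omega, Or.inr rfl⟩
  have hXin : ∀ k, a ≤ k → k ≤ b → (n ^ (2 * k)) z ∈ Arc n z a b ∧
      (n ^ (2 * k + 1)) z ∈ Arc n z a b := by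
    intro k hk hk'
    constructor
    · exact mem_image.2 ⟨2 * k, Finset.mem_Icc.2 ⟨by omega, by omega⟩, rfl⟩
    · exact mem_image.2 ⟨2 * k + 1, Finset.mem_Icc.2 ⟨by omega, by omega⟩, rfl⟩
  have hXZ : Arc n z a b ⊆ Z := by
    intro v hv
    obtain ⟨k, _, _, hk | hk⟩ := hXmem v hv
    · rw [hk]; exact hposZ _
    · rw [hk]; exact hposZ _
  have hXp : ∀ v ∈ Arc n z a b, p v ∈ Arc n z a b := by
    intro v hv
    obtain ⟨k, hak, hkb, hk | hk⟩ := hXmem v hv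
    · rw [hk, (hpair k (by omega)).1]; exact (hXin k hak hkb).2
    · rw [hk, (hpair k (by omega)).2]; exact (hXin k hak hkb).1
  -- marked points of the arc
  have hXm : ∀ v ∈ Arc n z a b, ∀ w, w ≠ 3 → Mk A Z t p t' C v w →
      ∃ k, (k = a ∨ k = b) ∧ Mk A Z t p t' C ((n ^ (2 * k)) z) w ∧
        (v = (n ^ (2 * k)) z ∨ v = (n ^ (2 * k + 1)) z) := by
    intro v hv w hw hm
    obtain ⟨k, hak, hkb, hk⟩ := hXmem v hv
    have hmk : Mk A Z t p t' C ((n ^ (2 * k)) z) w := by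
      rcases hk with hk | hk
      · rw [← hk]; exact hm
      · have h := mk_p hm (hXZ hv)
        rwa [hk, (hpair k (by omega)).2] at h
    refine ⟨k, ?_, hmk, hk⟩
    by_contra hne
    exact hbetw k (by omega) (by omega) w hw hmk
  -- the two tails
  have hta : ∃ e ∈ C i, ∃ U, Tl A Z (Arc n z a b) t p ((n ^ (2 * a)) z) e U := by
    refine tail h2 hA hZA hZp hC hT hXZ hXp (hXin a le_rfl hab.le).1 hma ?_
    intro u hu hm
    obtain ⟨k, hk, hmk, huk⟩ := hXm u hu i hi3 hm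
    rcases hk with hk | hk
    · subst hk
      rw [(hpair k (by omega)).1]
      exact huk
    · subst hk
      exact absurd (uniq hA hZp hC hd hmk hmb) hij
  have hmb' : Mk A Z t p t' C ((n ^ (2 * b + 1)) z) j := by
    have h := mk_p hmb (hposZ _)
    rwa [(hpair b hb).1] at h
  have htb : ∃ f ∈ C j, ∃ U, Tl A Z (Arc n z a b) t p ((n ^ (2 * b + 1)) z) f U := by
    refine tail h2 hA hZA hZp hC hT hXZ hXp (hXin b hab.le le_rfl).2 hmb' ?_
    intro u hu hm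
    obtain ⟨k, hk, hmk, huk⟩ := hXm u hu j hj3 hm
    rcases hk with hk | hk
    · subst hk
      exact absurd (uniq hA hZp hC hd hma hmk) hij
    · subst hk
      rw [(hpair k hb).2]
      exact huk.symm
  obtain ⟨e, he, hU1⟩ := hta
  obtain ⟨f, hf, hU2⟩ := htb
  obtain ⟨a', b', hab', hb', i', j', k', hij', hik', hjk', hi3', hj3', hk3', e', he', f', hf', g', hg',
    q', hq', ⟨V1, hV1⟩, ⟨V2, hV2⟩, ⟨L, hL⟩⟩ :=
    h4 V n A t C Z hF p t' hAlg hRed hstar z hz hpz ⟨a, b, hab, hb, i, j, hij, hi3, hj3, e, he, f, hf, hU1, hU2⟩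
  refine h5 V n A t C Z hF p hAlg z hz hpz a' b' hab' hb' ![e', f', g', q'] V1 V2 L ![i', j', k', 3]
    ?_ ?_ hV1 hV2 hL
  · exact inj4 hij' hik' hjk' hi3' hj3' hk3'
  · intro k
    fin_cases k
    · exact he'
    · exact hf'
    · exact hg'
    · exact hq'

end

end Pool.Agent.Helper57.FRD.LOOP
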